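import Pool.Agent.W982.TA.Stm2

/-! Project TA: TaskS11, adjacent blocky cells have the same sign. -/

set_option autoImplicit false

namespace Pool.Agent.W982.TA

theorem s11_abs {a b c d : ℤ} (ha : a ≠ 0) (hb : b ≠ 0) (hc : c ≠ 0) (hd : d ≠ 0)
    (h : a * b * (c * d) < 0) :
    a ^ 2 < (a * d - b * c) ^ 2 ∧ b ^ 2 < (a * d - b * c) ^ 2 ∧
    c ^ 2 < (a * d - b * c) ^ 2 ∧ d ^ 2 < (a * d - b * c) ^ 2 := by
  have hxy : (a * d) * (b * c) < 0 := by
    have e : (a * d) * (b * c) = a * b * (c * d) := by ring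
    rw [e]; exact h
  have h1 : |a * d - b * c| = |a| * |d| + |b| * |c| := by
    rw [← abs_mul, ← abs_mul]
    rcases mul_neg_iff.mp hxy with ⟨h2, h3⟩ | ⟨h2, h3⟩
    · rw [abs_of_pos h2, abs_of_neg h3, abs_of_pos (by linarith)]
      ring
    · rw [abs_of_neg h2, abs_of_pos h3, abs_of_neg (by linarith)]
      ring
  have ka := Int.one_le_abs ha
  have kb := Int.one_le_abs hb
  have kc := Int.one_le_abs hc
  have kd := Int.one_le_abs hd
  refine ⟨sq_lt_sq.mpr ?_, sq_lt_sq.mpr ?_, sq_lt_sq.mpr ?_, sq_lt_sq.mpr ?_⟩ <;> rw [h1] <;>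
    nlinarith

theorem s11_cross {p q v w : Pt} (h1 : (dtv v (q - p)) ^ 2 < (dtv v w) ^ 2)
    (h2 : (dtv w (q - p)) ^ 2 < (dtv v w) ^ 2) : PCross (p - v) (p + v) (q - w) (q + w) := by
  have e1 : dt (p - v) (p + v) (q - w) = 2 * (dtv v (q - p) - dtv v w) := by
    simp only [dt, dtv, Prod.fst_sub, Prod.snd_sub, Prod.fst_add, Prod.snd_add]; ring
  have e2 : dt (p - v) (p + v) (q + w) = 2 * (dtv v (q - p) + dtv v w) := by
    simp only [dt, dtv, Prod.fst_sub, Prod.snd_sub, Prod.fst_add, Prod.snd_add]; ring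
  have e3 : dt (q - w) (q + w) (p - v) = 2 * (- dtv w (q - p) + dtv v w) := by
    simp only [dt, dtv, Prod.fst_sub, Prod.snd_sub, Prod.fst_add, Prod.snd_add]; ring
  have e4 : dt (q - w) (q + w) (p + v) = 2 * (- dtv w (q - p) - dtv v w) := by
    simp only [dt, dtv, Prod.fst_sub, Prod.snd_sub, Prod.fst_add, Prod.snd_add]; ring
  refine ⟨?_, ?_⟩
  · rw [e1, e2]; nlinarith
  · rw [e3, e4]; nlinarith

theorem s11_ne {X Y : ℤ} {M : Finset Pt} {e : Pt → Pt} (hm : Medial X Y M e) {p : Pt}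
    (hp : p ∈ M) (hh : (p.1 + 1, p.2) ∈ M ∨ (p.1 - 1, p.2) ∈ M)
    (hv : (p.1, p.2 + 1) ∈ M ∨ (p.1, p.2 - 1) ∈ M) : (e p).1 ≠ 0 ∧ (e p).2 ≠ 0 := by
  have h1 := hm.prim p hp
  have h2 := (Finset.mem_sdiff.mp (hm.add_mem p hp)).2
  have h3 := (Finset.mem_sdiff.mp (hm.sub_mem p hp)).2
  constructor
  · intro h0
    rw [h0, Int.gcd_zero_left] at h1
    have h4 : (e p).2 = 1 ∨ (e p).2 = -1 := by omega
    have k1 : ∀ t : ℤ, (e p).2 = t → p + e p = (p.1, p.2 + t) ∧ p - e p = (p.1, p.2 - t) := by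
      intro t ht
      constructor
      · ext <;> simp [h0, ht]
      · ext <;> simp [h0, ht]
    rcases h4 with h4 | h4
    · obtain ⟨k2, k3⟩ := k1 _ h4
      rw [k2] at h2
      rw [k3] at h3
      rcases hv with hv | hv
      · exact h2 hv
      · exact h3 hv
    · obtain ⟨k2, k3⟩ := k1 _ h4
      rw [k2] at h2
      rw [k3, sub_neg_eq_add] at h3
      rcases hv with hv | hv
      · exact h3 hv
      · exact h2 hv
  · intro h0
    rw [h0, Int.gcd_zero_right] at h1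
    have h4 : (e p).1 = 1 ∨ (e p).1 = -1 := by omega
    have k1 : ∀ t : ℤ, (e p).1 = t → p + e p = (p.1 + t, p.2) ∧ p - e p = (p.1 - t, p.2) := by
      intro t ht
      constructor
      · ext <;> simp [h0, ht]
      · ext <;> simp [h0, ht]
    rcases h4 with h4 | h4
    · obtain ⟨k2, k3⟩ := k1 _ h4
      rw [k2] at h2
      rw [k3] at h3
      rcases hh with hh | hh
      · exact h2 hh
      · exact h3 hh
    · obtain ⟨k2, k3⟩ := k1 _ h4
      rw [k2] at h2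
      rw [k3, sub_neg_eq_add] at h3
      rcases hh with hh | hh
      · exact h3 hh
      · exact h2 hh

theorem s11 : TaskS11 := by
  intro X Y M e p q hm hp hq hph hpv hqh hqv hadj
  obtain ⟨ha, hb⟩ := s11_ne hm hp hph hpv
  obtain ⟨hc, hd⟩ := s11_ne hm hq hqh hqv
  by_contra hcon
  have hne : sg e p * sg e q ≠ 0 := by
    unfold sg
    exact mul_ne_zero (mul_ne_zero ha hb) (mul_ne_zero hc hd)
  have hneg : (e p).1 * (e p).2 * ((e q).1 * (e q).2) < 0 :=
    lt_of_le_of_ne (not_lt.mp hcon) hne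
  obtain ⟨k1, k2, k3, k4⟩ := s11_abs ha hb hc hd hneg
  simp only [adjC, Bool.or_eq_true, Bool.and_eq_true, decide_eq_true_eq] at hadj
  have hpq : p ≠ q := by
    rintro rfl
    omega
  refine hm.disj p hp q hq hpq (s11_cross ?_ ?_)
  · rcases hadj with ⟨h1, h2⟩ | ⟨h1, h2⟩
    · have e1 : (dtv (e p) (q - p)) ^ 2 = (e p).1 ^ 2 * (q.2 - p.2) ^ 2 := by
        simp only [dtv, Prod.fst_sub, Prod.snd_sub, h1]; ring
      have e2 : (q.2 - p.2) ^ 2 = 1 := by
        rcases h2 with h2 | h2 <;> rw [h2] <;> ring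
      rw [e1, e2, mul_one]
      exact k1
    · have e1 : (dtv (e p) (q - p)) ^ 2 = (e p).2 ^ 2 * (q.1 - p.1) ^ 2 := by
        simp only [dtv, Prod.fst_sub, Prod.snd_sub, h1]; ring
      have e2 : (q.1 - p.1) ^ 2 = 1 := by
        rcases h2 with h2 | h2 <;> rw [h2] <;> ring
      rw [e1, e2, mul_one]
      exact k2
  · rcases hadj with ⟨h1, h2⟩ | ⟨h1, h2⟩
    · have e1 : (dtv (e q) (q - p)) ^ 2 = (e q).1 ^ 2 * (q.2 - p.2) ^ 2 := by
        simp only [dtv, Prod.fst_sub, Prod.snd_sub, h1]; ring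
      have e2 : (q.2 - p.2) ^ 2 = 1 := by
        rcases h2 with h2 | h2 <;> rw [h2] <;> ring
      rw [e1, e2, mul_one]
      exact k3
    · have e1 : (dtv (e q) (q - p)) ^ 2 = (e q).2 ^ 2 * (q.1 - p.1) ^ 2 := by
        simp only [dtv, Prod.fst_sub, Prod.snd_sub, h1]; ring
      have e2 : (q.1 - p.1) ^ 2 = 1 := by
        rcases h2 with h2 | h2 <;> rw [h2] <;> ring
      rw [e1, e2, mul_one]
      exact k4

end Pool.Agent.W982.TA
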